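import Mathlib.Data.Rat.Defs
import Mathlib.Algebra.Ring.Int.Parity
import Mathlib.Tactic

/-! The sign `(-1)^i` for an integer `i`. -/

set_option autoImplicit false

namespace Pool.Agent.X263.CDGA

/-- The sign `(-1)^i`. -/
def sgn (i : ℤ) : ℚ := if Even i then 1 else -1

theorem sgn_of_even {i : ℤ} (h : Even i) : sgn i = 1 := by simp [sgn, h]
theorem sgn_of_odd {i : ℤ} (h : Odd i) : sgn i = -1 := by
  simp [sgn, Int.not_even_iff_odd.mpr h]
theorem sgn_zero : sgn 0 = 1 := by simp [sgn]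
theorem sgn_one : sgn 1 = -1 := by simp [sgn]

theorem sgn_add (i j : ℤ) : sgn (i + j) = sgn i * sgn j := by
  rcases Int.even_or_odd i with hi | hi <;> rcases Int.even_or_odd j with hj | hj
  · rw [sgn_of_even hi, sgn_of_even hj, sgn_of_even (hi.add hj)]; norm_num
  · rw [sgn_of_even hi, sgn_of_odd hj, sgn_of_odd (hi.add_odd hj)]; norm_num
  · rw [sgn_of_odd hi, sgn_of_even hj, sgn_of_odd (hi.add_even hj)]; norm_num
  · rw [sgn_of_odd hi, sgn_of_odd hj, sgn_of_even (hi.add_odd hj)]; norm_num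

theorem sgn_mul_self (i : ℤ) : sgn i * sgn i = 1 := by
  rw [← sgn_add, sgn_of_even ⟨i, rfl⟩]

theorem sgn_sq_arg (i : ℤ) : sgn (i * i) = sgn i := by
  rcases Int.even_or_odd i with hi | hi
  · rw [sgn_of_even hi, sgn_of_even (hi.mul_left i)]
  · rw [sgn_of_odd hi, sgn_of_odd (hi.mul hi)]

theorem sgn_eq_or (i : ℤ) : sgn i = 1 ∨ sgn i = -1 := by
  unfold sgn
  split_ifs
  · exact Or.inl rfl
  · exact Or.inr rfl


end Pool.Agent.X263.CDGA
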