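import Mathlib
import Pool.Agent.X263.CDGA.Sign

/-!
Commutative differential graded algebras over `ℚ` (with differentials and products bundled as
linear maps), the shifted dual module, semi-trivial mapping cones, and the fact that the
intersection form of such a cone is never anisotropic.
-/

set_option autoImplicit false

universe u

namespace Pool.Agent.X263.CDGA

/-- A commutative differential graded algebra over `ℚ`, graded by the integers, with a differential
of degree `+1`. (The algebras of the problem are those which vanish in negative degrees, see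
`IsNonneg`.) The index `h : i + j = k` of a multiplication map only records the degree of the
target. -/
structure LCDGA where
  /-- the homogeneous components -/
  X : ℤ → Type u
  [acg : ∀ i, AddCommGroup (X i)]
  [mod : ∀ i, Module ℚ (X i)]
  /-- the differential -/
  d : ∀ i j, i + 1 = j → (X i →ₗ[ℚ] X j)
  /-- the multiplication -/
  mul : ∀ i j k, i + j = k → (X i →ₗ[ℚ] X j →ₗ[ℚ] X k)
  /-- the unit -/
  one : X 0
  d_d : ∀ i j k (hij : i + 1 = j) (hjk : j + 1 = k) (x : X i), d j k hjk (d i j hij x) = 0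
  one_mul : ∀ i (h : 0 + i = i) (x : X i), mul 0 i i h one x = x
  assoc : ∀ i j k ij jk ijk (h1 : i + j = ij) (h2 : ij + k = ijk) (h3 : j + k = jk)
    (h4 : i + jk = ijk) (x : X i) (y : X j) (z : X k),
    mul ij k ijk h2 (mul i j ij h1 x y) z = mul i jk ijk h4 x (mul j k jk h3 y z)
  comm : ∀ i j k (h : i + j = k) (h' : j + i = k) (x : X i) (y : X j),
    mul i j k h x y = sgn (i * j) • mul j i k h' y x
  leibniz : ∀ i j k i' j' k' (h : i + j = k) (hi : i + 1 = i') (hj : j + 1 = j') (hk : k + 1 = k')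
    (h1 : i' + j = k') (h2 : i + j' = k') (x : X i) (y : X j),
    d k k' hk (mul i j k h x y) =
      mul i' j k' h1 (d i i' hi x) y + sgn i • mul i j' k' h2 x (d j j' hj y)

attribute [instance] LCDGA.acg LCDGA.mod

/-- The algebra vanishes in negative degrees. -/
def LCDGA.IsNonneg (A : LCDGA.{u}) : Prop := ∀ i, i < 0 → ∀ x : A.X i, x = 0

/-- A differential graded module over `Q`. -/
structure LMod (Q : LCDGA.{u}) where
  /-- the homogeneous components -/
  X : ℤ → Type u
  [acg : ∀ i, AddCommGroup (X i)]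
  [mod : ∀ i, Module ℚ (X i)]
  /-- the differential -/
  d : ∀ i j, i + 1 = j → (X i →ₗ[ℚ] X j)
  /-- the action of `Q` -/
  act : ∀ i j k, i + j = k → (Q.X i →ₗ[ℚ] X j →ₗ[ℚ] X k)
  d_d : ∀ i j k (hij : i + 1 = j) (hjk : j + 1 = k) (x : X i), d j k hjk (d i j hij x) = 0
  one_act : ∀ i (h : 0 + i = i) (x : X i), act 0 i i h Q.one x = x
  assoc : ∀ i j k ij jk ijk (h1 : i + j = ij) (h2 : ij + k = ijk) (h3 : j + k = jk)
    (h4 : i + jk = ijk) (x : Q.X i) (y : Q.X j) (z : X k),
    act ij k ijk h2 (Q.mul i j ij h1 x y) z = act i jk ijk h4 x (act j k jk h3 y z)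
  leibniz : ∀ i j k i' j' k' (h : i + j = k) (hi : i + 1 = i') (hj : j + 1 = j') (hk : k + 1 = k')
    (h1 : i' + j = k') (h2 : i + j' = k') (x : Q.X i) (y : X j),
    d k k' hk (act i j k h x y) =
      act i' j k' h1 (Q.d i i' hi x) y + sgn i • act i j' k' h2 x (d j j' hj y)

attribute [instance] LMod.acg LMod.mod

/-- A morphism of `Q`-dg-modules `M → Q`. -/
structure LMod.ToAlg {Q : LCDGA.{u}} (M : LMod Q) where
  /-- the components -/
  f : ∀ i, M.X i →ₗ[ℚ] Q.X i
  map_d : ∀ i j (h : i + 1 = j) (x : M.X i), f j (M.d i j h x) = Q.d i j h (f i x)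
  map_act : ∀ i j k (h : i + j = k) (a : Q.X i) (x : M.X j),
    f k (M.act i j k h a x) = Q.mul i j k h a (f j x)

/-- `Ψ` is balanced: `Ψ(x) · y = x · Ψ(y)`, where the right action of `Q` on `M` is
`x · a = (-1)^{|x||a|} a · x`. -/
def LMod.ToAlg.Balanced {Q : LCDGA.{u}} {M : LMod Q} (Ψ : M.ToAlg) : Prop :=
  ∀ i j k (h : i + j = k) (h' : j + i = k) (x : M.X i) (y : M.X j),
    M.act i j k h (Ψ.f i x) y = sgn (i * j) • M.act j i k h' (Ψ.f j y) x

/-- The dg-module `s^{-n} #Q`: its component of degree `p` is the dual of the component of `Q` of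
degree `n - p`, the action is `(a · φ)(x) = (-1)^{|a||φ|} φ(a x)` and the differential is
`(dφ)(x) = (-1)^{|φ|+1} φ(dx)`. -/
noncomputable def dualShiftL (Q : LCDGA.{u}) (n : ℤ) : LMod Q where
  X p := Module.Dual ℚ (Q.X (n - p))
  d i j h :=
    { toFun := fun φ => sgn (i + 1) • (φ ∘ₗ Q.d (n - j) (n - i) (by omega))
      map_add' := fun φ ψ => by
        ext x
        simp [mul_add]
      map_smul' := fun c φ => by
        ext x
        simp [mul_left_comm] }
  act i j k h := LinearMap.mk₂ ℚ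
    (fun a φ => sgn (i * j) • (φ ∘ₗ (Q.mul i (n - k) (n - j) (by omega) a)))
    (fun a b φ => by ext x; simp [mul_add])
    (fun c a φ => by ext x; simp [mul_left_comm])
    (fun a φ ψ => by ext x; simp [mul_add])
    (fun c a φ => by ext x; simp [mul_left_comm])
  d_d i j k hij hjk φ := by
    ext x
    simp [Q.d_d]
  one_act i h φ := by
    ext x
    simp only [LinearMap.mk₂_apply, LinearMap.smul_apply, LinearMap.comp_apply, zero_mul, sgn_zero,
      one_smul]
    rw [Q.one_mul]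
  assoc i j k ij jk ijk h1 h2 h3 h4 x y φ := by
    ext z
    simp only [LinearMap.mk₂_apply, LinearMap.smul_apply, LinearMap.comp_apply, smul_eq_mul]
    have e1 : Q.mul j (n - jk) (n - k) (by omega) y (Q.mul i (n - ijk) (n - jk) (by omega) x z) =
        sgn (i * j) • Q.mul ij (n - ijk) (n - k) (by omega) (Q.mul i j ij h1 x y) z := by
      rw [← Q.assoc j i (n - ijk) ij (n - jk) (n - k) (by omega) (by omega) (by omega) (by omega)
        y x z, Q.comm j i ij (by omega) h1 y x, map_smul, LinearMap.smul_apply, mul_comm j i]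
    rw [e1, map_smul, smul_eq_mul]
    subst h1 h3
    simp only [mul_add, add_mul, sgn_add]
    rcases sgn_eq_or (i * j) with h5 | h5 <;> rcases sgn_eq_or (i * k) with h6 | h6 <;>
      rcases sgn_eq_or (j * k) with h7 | h7 <;> simp only [h5, h6, h7] <;> ring
  leibniz i j k i' j' k' h hi hj hk h1 h2 x φ := by
    ext z
    simp only [LinearMap.mk₂_apply, LinearMap.smul_apply, LinearMap.comp_apply, smul_eq_mul,
      LinearMap.coe_mk, AddHom.coe_mk, LinearMap.add_apply]
    rw [Q.leibniz i (n - k') (n - j') i' (n - k) (n - j) (by omega) hi (by omega) (by omega)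
      (by omega) (by omega) x z, map_add, map_smul, smul_eq_mul]
    subst h hi hj hk
    simp only [mul_add, add_mul, sgn_add, mul_one, one_mul, sgn_one]
    rcases sgn_eq_or (i * j) with h5 | h5 <;> rcases sgn_eq_or i with h6 | h6 <;>
      rcases sgn_eq_or j with h7 | h7 <;> simp only [h5, h6, h7] <;> ring

section Cone

variable {Q : LCDGA.{u}} {M : LMod Q}

/-- The components of `Ψ`, with the degree of the target recorded separately. -/
def LMod.ToAlg.g (Ψ : M.ToAlg) (i j : ℤ) (h : i = j) : M.X i →ₗ[ℚ] Q.X j := by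
  subst h
  exact Ψ.f i

theorem LMod.ToAlg.g_self (Ψ : M.ToAlg) (i : ℤ) (h : i = i) : Ψ.g i i h = Ψ.f i := rfl

theorem LMod.ToAlg.g_d (Ψ : M.ToAlg) (i j i' j' : ℤ) (h : i + 1 = j) (hi : i = i') (hj : j = j')
    (h' : i' + 1 = j') (x : M.X i) :
    Ψ.g j j' hj (M.d i j h x) = Q.d i' j' h' (Ψ.g i i' hi x) := by
  subst hi hj
  exact Ψ.map_d i j h x

theorem LMod.ToAlg.g_act (Ψ : M.ToAlg) (i j k j' k' : ℤ) (h : i + j = k) (hj : j = j')
    (hk : k = k') (h' : i + j' = k') (a : Q.X i) (x : M.X j) :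
    Ψ.g k k' hk (M.act i j k h a x) = Q.mul i j' k' h' a (Ψ.g j j' hj x) := by
  subst hj hk
  exact Ψ.map_act i j k h a x

theorem LMod.ToAlg.g_balanced {Ψ : M.ToAlg} (hΨ : Ψ.Balanced) (i j k i' j' : ℤ) (hi : i = i')
    (hj : j = j') (h : i' + j = k) (h' : j' + i = k) (x : M.X i) (y : M.X j) :
    M.act i' j k h (Ψ.g i i' hi x) y = sgn (i * j) • M.act j' i k h' (Ψ.g j j' hj y) x := by
  subst hi hj
  exact hΨ i j k h h' x y

theorem LMod.act_comm (M : LMod Q) (i k l il kl n : ℤ) (h1 : i + l = il) (h2 : k + il = n)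
    (h3 : k + l = kl) (h4 : i + kl = n) (a : Q.X i) (b : Q.X k) (m : M.X l) :
    M.act k il n h2 b (M.act i l il h1 a m) =
      sgn (i * k) • M.act i kl n h4 a (M.act k l kl h3 b m) := by
  rw [← M.assoc k i l (k + i) il n rfl (by omega) h1 h2 b a m,
    Q.comm k i (k + i) rfl (by omega) b a, map_smul, LinearMap.smul_apply,
    M.assoc i k l (k + i) kl n (by omega) (by omega) h3 h4 a b m, mul_comm k i]

/-- The semi-trivial mapping coneL `Q ⊕_Ψ sM`. -/
noncomputable def coneL (Ψ : M.ToAlg) (hΨ : Ψ.Balanced) : LCDGA.{u} where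
  X i := Q.X i × M.X (i + 1)
  d i j h :=
    { toFun := fun x => (Q.d i j h x.1 + Ψ.g (i + 1) j h x.2,
        - M.d (i + 1) (j + 1) (by omega) x.2)
      map_add' := fun x y => by
        refine Prod.ext ?_ ?_
        · simp only [Prod.fst_add, Prod.snd_add, map_add]
          abel
        · simp only [Prod.snd_add, map_add, neg_add]
      map_smul' := fun c x => by
        refine Prod.ext ?_ ?_
        · simp only [Prod.smul_fst, Prod.smul_snd, map_smul, smul_add, RingHom.id_apply]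
        · simp only [Prod.smul_snd, map_smul, smul_neg, RingHom.id_apply] }
  mul i j k h := LinearMap.mk₂ ℚ
    (fun x y => (Q.mul i j k h x.1 y.1,
      sgn i • M.act i (j + 1) (k + 1) (by omega) x.1 y.2 +
        sgn (i * j + j) • M.act j (i + 1) (k + 1) (by omega) y.1 x.2))
    (fun x y z => by
      refine Prod.ext ?_ ?_
      · simp only [Prod.fst_add, map_add, LinearMap.add_apply]
      · simp only [Prod.fst_add, Prod.snd_add, map_add, LinearMap.add_apply, smul_add]
        abel)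
    (fun c x y => by
      refine Prod.ext ?_ ?_
      · simp only [Prod.smul_fst, map_smul, LinearMap.smul_apply]
      · simp only [Prod.smul_fst, Prod.smul_snd, map_smul, LinearMap.smul_apply, smul_add]
        rw [smul_comm c, smul_comm c])
    (fun x y z => by
      refine Prod.ext ?_ ?_
      · simp only [Prod.fst_add, map_add]
      · simp only [Prod.fst_add, Prod.snd_add, map_add, LinearMap.add_apply, smul_add]
        abel)
    (fun c x y => by
      refine Prod.ext ?_ ?_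
      · simp only [Prod.smul_fst, map_smul]
      · simp only [Prod.smul_fst, Prod.smul_snd, map_smul, LinearMap.smul_apply, smul_add]
        rw [smul_comm c, smul_comm c])
  one := (Q.one, 0)
  d_d i j k hij hjk x := by
    refine Prod.ext ?_ ?_
    · simp only [LinearMap.coe_mk, AddHom.coe_mk, map_add, Q.d_d, map_neg, zero_add, Prod.fst_zero]
      rw [Ψ.g_d (i + 1) (j + 1) j k (by omega) (by omega) (by omega) hjk]
      simp
    · simp only [LinearMap.coe_mk, AddHom.coe_mk, map_neg, M.d_d, neg_zero, Prod.snd_zero]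
  one_mul i h x := by
    refine Prod.ext ?_ ?_
    · simp only [LinearMap.mk₂_apply, Q.one_mul]
    · simp only [LinearMap.mk₂_apply, map_zero, smul_zero, add_zero, sgn_zero, one_smul, M.one_act]
  assoc i j k ij jk ijk h1 h2 h3 h4 x y z := by
    refine Prod.ext ?_ ?_
    · simp only [LinearMap.mk₂_apply]
      exact Q.assoc i j k ij jk ijk h1 h2 h3 h4 _ _ _
    · simp only [LinearMap.mk₂_apply, map_add, map_smul, smul_add]
      rw [M.assoc i j (k + 1) ij (jk + 1) (ijk + 1) h1 (by omega) (by omega) (by omega) x.1 y.1 z.2,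
        M.act_comm i k (j + 1) (ij + 1) (jk + 1) (ijk + 1) (by omega) (by omega) (by omega)
          (by omega) x.1 z.1 y.2,
        M.act_comm j k (i + 1) (ij + 1) (k + (i + 1)) (ijk + 1) (by omega) (by omega) (by omega)
          (by omega) y.1 z.1 x.2,
        M.assoc j k (i + 1) jk (k + (i + 1)) (ijk + 1) h3 (by omega) (by omega) (by omega) y.1 z.1
          x.2]
      subst h1 h3
      simp only [mul_add, add_mul, sgn_add, smul_smul]
      rcases sgn_eq_or (i * j) with h5 | h5 <;> rcases sgn_eq_or (i * k) with h6 | h6 <;>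
        rcases sgn_eq_or (j * k) with h7 | h7 <;> rcases sgn_eq_or i with h8 | h8 <;>
        rcases sgn_eq_or j with h9 | h9 <;> rcases sgn_eq_or k with h10 | h10 <;>
        simp only [h5, h6, h7, h8, h9, h10] <;> module
  comm i j k h h' x y := by
    refine Prod.ext ?_ ?_
    · simp only [LinearMap.mk₂_apply, Prod.smul_fst]
      exact Q.comm i j k h h' _ _
    · simp only [LinearMap.mk₂_apply, Prod.smul_snd, smul_add, smul_smul]
      rw [mul_comm j i]
      simp only [sgn_add]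
      rcases sgn_eq_or (i * j) with h5 | h5 <;> rcases sgn_eq_or i with h8 | h8 <;>
        rcases sgn_eq_or j with h9 | h9 <;> simp only [h5, h8, h9] <;> module
  leibniz i j k i' j' k' h hi hj hk h1 h2 x y := by
    refine Prod.ext ?_ ?_
    · simp only [LinearMap.mk₂_apply, LinearMap.coe_mk, AddHom.coe_mk, Prod.fst_add, Prod.smul_fst,
        map_add, map_smul, LinearMap.add_apply, smul_add]
      rw [Q.leibniz i j k i' j' k' h hi hj hk h1 h2 x.1 y.1,
        Ψ.g_act i (j + 1) (k + 1) j' k' (by omega) hj hk h2 x.1 y.2,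
        Ψ.g_act j (i + 1) (k + 1) i' k' (by omega) hi hk (by omega) y.1 x.2,
        Q.comm i' j k' h1 (by omega) (Ψ.g (i + 1) i' hi x.2) y.1]
      subst hi
      simp only [mul_add, add_mul, sgn_add, one_mul]
      rcases sgn_eq_or (i * j) with h5 | h5 <;> rcases sgn_eq_or i with h8 | h8 <;>
        rcases sgn_eq_or j with h9 | h9 <;> simp only [h5, h8, h9] <;> module
    · simp only [LinearMap.mk₂_apply, LinearMap.coe_mk, AddHom.coe_mk, Prod.snd_add, Prod.smul_snd,
        map_add, map_smul, map_neg, LinearMap.add_apply, smul_add]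
      rw [M.leibniz i (j + 1) (k + 1) i' (j' + 1) (k' + 1) (by omega) hi (by omega) (by omega)
          (by omega) (by omega) x.1 y.2,
        M.leibniz j (i + 1) (k + 1) j' (i' + 1) (k' + 1) (by omega) hj (by omega) (by omega)
          (by omega) (by omega) y.1 x.2,
        LMod.ToAlg.g_balanced hΨ (i + 1) (j + 1) (k' + 1) i' j' hi hj (by omega) (by omega) x.2 y.2]
      subst hi hj
      simp only [mul_add, add_mul, sgn_add, one_mul, mul_one, sgn_one]
      rcases sgn_eq_or (i * j) with h5 | h5 <;> rcases sgn_eq_or i with h8 | h8 <;>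
        rcases sgn_eq_or j with h9 | h9 <;> simp only [h5, h8, h9] <;> module

end Cone

/-! ### Cohomology and quasi-isomorphisms -/

/-- `x` is a cocycle. -/
def LCDGA.Closed (A : LCDGA.{u}) (i : ℤ) (x : A.X i) : Prop := A.d i (i + 1) rfl x = 0

/-- `x` is a coboundary. -/
def LCDGA.Exact (A : LCDGA.{u}) (i : ℤ) (x : A.X i) : Prop :=
  ∃ y : A.X (i - 1), A.d (i - 1) i (by omega) y = x

/-- A morphism of CDGAs. -/
structure LCDGA.Hom (A B : LCDGA.{u}) where
  /-- the components -/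
  f : ∀ i, A.X i →ₗ[ℚ] B.X i
  map_one : f 0 A.one = B.one
  map_mul : ∀ i j k (h : i + j = k) (x : A.X i) (y : A.X j),
    f k (A.mul i j k h x y) = B.mul i j k h (f i x) (f j y)
  map_d : ∀ i j (h : i + 1 = j) (x : A.X i), f j (A.d i j h x) = B.d i j h (f i x)

/-- `f` is a quasi-isomorphism: it induces a bijection in cohomology in every degree. -/
def LCDGA.Hom.IsQuasiIso {A B : LCDGA.{u}} (f : A.Hom B) : Prop :=
  (∀ i (x : A.X i), A.Closed i x → B.Exact i (f.f i x) → A.Exact i x) ∧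
    ∀ i (y : B.X i), B.Closed i y → ∃ x : A.X i, A.Closed i x ∧ B.Exact i (y - f.f i x)

/-- Two CDGAs are quasi-isomorphic if they are joined by a zigzag of quasi-isomorphisms. -/
def QuasiIsomorphicL (A B : LCDGA.{u}) : Prop :=
  Relation.EqvGen (fun A B : LCDGA.{u} => ∃ f : A.Hom B, f.IsQuasiIso) A B

section Cohomology

variable {A B : LCDGA.{u}}

theorem LCDGA.exact_iff {i i' : ℤ} (h : i' + 1 = i) (x : A.X i) :
    A.Exact i x ↔ ∃ y : A.X i', A.d i' i h y = x := by
  obtain rfl : i' = i - 1 := by omega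
  rfl

theorem LCDGA.closed_iff {i j : ℤ} (h : i + 1 = j) (x : A.X i) :
    A.Closed i x ↔ A.d i j h x = 0 := by
  subst h
  rfl

theorem LCDGA.exact_d {i j : ℤ} (h : i + 1 = j) (x : A.X i) : A.Exact j (A.d i j h x) :=
  (LCDGA.exact_iff h _).mpr ⟨x, rfl⟩

theorem LCDGA.Exact.closed {i : ℤ} {x : A.X i} (h : A.Exact i x) : A.Closed i x := by
  obtain ⟨y, rfl⟩ := h
  exact A.d_d _ _ _ _ _ _

theorem LCDGA.Exact.add {i : ℤ} {x y : A.X i} (hx : A.Exact i x) (hy : A.Exact i y) :
    A.Exact i (x + y) := by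
  obtain ⟨a, rfl⟩ := hx
  obtain ⟨b, rfl⟩ := hy
  exact ⟨a + b, map_add _ _ _⟩

theorem LCDGA.Exact.smul {i : ℤ} {x : A.X i} (hx : A.Exact i x) (c : ℚ) : A.Exact i (c • x) := by
  obtain ⟨a, rfl⟩ := hx
  exact ⟨c • a, map_smul _ _ _⟩

theorem LCDGA.Exact.neg {i : ℤ} {x : A.X i} (hx : A.Exact i x) : A.Exact i (-x) := by
  obtain ⟨a, rfl⟩ := hx
  exact ⟨-a, map_neg _ _⟩

theorem LCDGA.Exact.sub {i : ℤ} {x y : A.X i} (hx : A.Exact i x) (hy : A.Exact i y) :
    A.Exact i (x - y) := by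
  rw [sub_eq_add_neg]
  exact hx.add hy.neg

theorem LCDGA.Closed.add {i : ℤ} {x y : A.X i} (hx : A.Closed i x) (hy : A.Closed i y) :
    A.Closed i (x + y) := by
  unfold LCDGA.Closed at *
  rw [map_add, hx, hy, add_zero]

theorem LCDGA.Closed.smul {i : ℤ} {x : A.X i} (hx : A.Closed i x) (c : ℚ) :
    A.Closed i (c • x) := by
  unfold LCDGA.Closed at *
  rw [map_smul, hx, smul_zero]

theorem LCDGA.Closed.neg {i : ℤ} {x : A.X i} (hx : A.Closed i x) : A.Closed i (-x) := by
  unfold LCDGA.Closed at *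
  rw [map_neg, hx, neg_zero]

theorem LCDGA.Closed.sub {i : ℤ} {x y : A.X i} (hx : A.Closed i x) (hy : A.Closed i y) :
    A.Closed i (x - y) := by
  rw [sub_eq_add_neg]
  exact hx.add hy.neg

theorem LCDGA.Closed.mul {i j k : ℤ} (h : i + j = k) {x : A.X i} {y : A.X j} (hx : A.Closed i x)
    (hy : A.Closed j y) : A.Closed k (A.mul i j k h x y) := by
  unfold LCDGA.Closed at *
  rw [A.leibniz i j k (i + 1) (j + 1) (k + 1) h rfl rfl rfl (by omega) (by omega), hx, hy]
  simp

theorem LCDGA.Closed.mul_exact {i j k : ℤ} (h : i + j = k) {x : A.X i} {y : A.X j}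
    (hx : A.Closed i x) (hy : A.Exact j y) : A.Exact k (A.mul i j k h x y) := by
  obtain ⟨z, rfl⟩ := hy
  have h1 := A.leibniz i (j - 1) (k - 1) (i + 1) j k (by omega) rfl (by omega) (by omega)
    (by omega) h x z
  rw [show A.d i (i + 1) rfl x = 0 from hx] at h1
  simp only [map_zero, LinearMap.zero_apply, zero_add] at h1
  have h2 : A.mul i j k h x (A.d (j - 1) j (by omega) z) =
      sgn i • A.d (k - 1) k (by omega) (A.mul i (j - 1) (k - 1) (by omega) x z) := by
    rw [h1, smul_smul, sgn_mul_self, one_smul]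
  rw [h2]
  exact (LCDGA.exact_d _ _).smul _

theorem LCDGA.Exact.mul_closed {i j k : ℤ} (h : i + j = k) {x : A.X i} {y : A.X j}
    (hx : A.Exact i x) (hy : A.Closed j y) : A.Exact k (A.mul i j k h x y) := by
  rw [A.comm i j k h (by omega)]
  exact (hy.mul_exact _ hx).smul _

theorem LCDGA.Hom.map_closed (f : A.Hom B) {i : ℤ} {x : A.X i} (hx : A.Closed i x) :
    B.Closed i (f.f i x) := by
  unfold LCDGA.Closed at *
  rw [← f.map_d, hx, map_zero]

theorem LCDGA.Hom.map_exact (f : A.Hom B) {i : ℤ} {x : A.X i} (hx : A.Exact i x) :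
    B.Exact i (f.f i x) := by
  obtain ⟨y, rfl⟩ := hx
  rw [f.map_d]
  exact LCDGA.exact_d _ _

/-- The properties of the cohomology algebra used to distinguish it from the cohomology of cones:
the unit is not a coboundary, `H^m` has dimension at most one, `H^r ≠ 0` and `z² ≠ 0` for all
nonzero `z ∈ H^r`. -/
def Aniso (r m : ℤ) (h : r + r = m) (A : LCDGA.{u}) : Prop :=
  ¬ A.Exact 0 A.one ∧
  (∀ x y : A.X m, A.Closed m x → A.Closed m y → ¬ A.Exact m y → ∃ c : ℚ, A.Exact m (x - c • y)) ∧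
  (∃ z : A.X r, A.Closed r z ∧ ¬ A.Exact r z) ∧
  (∀ z : A.X r, A.Closed r z → A.Exact m (A.mul r r m h z z) → A.Exact r z)

theorem aniso_iff {r m : ℤ} (h : r + r = m) (f : A.Hom B) (hf : f.IsQuasiIso) :
    Aniso r m h A ↔ Aniso r m h B := by
  obtain ⟨hinj, hsurj⟩ := hf
  have hnot : ∀ {i : ℤ} {y : B.X i} {x : A.X i}, B.Exact i (y - f.f i x) → ¬ B.Exact i y →
      ¬ A.Exact i x := by
    intro i y x h1 h2 h3
    apply h2
    have := h1.add (f.map_exact h3)
    rwa [sub_add_cancel] at this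
  constructor
  · rintro ⟨r1, r3, ⟨z, hz, hz'⟩, r5⟩
    refine ⟨?_, ?_, ?_, ?_⟩
    · intro h1
      rw [← f.map_one] at h1
      refine r1 (hinj 0 _ ?_ h1)
      have h2 := A.leibniz 0 0 0 1 1 1 (by norm_num) (by norm_num) (by norm_num) (by norm_num)
        (by norm_num) (by norm_num) A.one A.one
      rw [A.one_mul, sgn_zero, one_smul, A.one_mul] at h2
      rw [A.comm 1 0 1 (by norm_num) (by norm_num), A.one_mul] at h2
      simp only [mul_zero, sgn_zero, one_smul] at h2
      unfold LCDGA.Closed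
      have h3 : A.d 0 1 (by norm_num) A.one = 0 := by
        simpa using h2
      exact h3
    · intro x y hx hy hy'
      obtain ⟨x', hx', ex⟩ := hsurj m x hx
      obtain ⟨y', hy1, ey⟩ := hsurj m y hy
      obtain ⟨c, hc⟩ := r3 x' y' hx' hy1 (hnot ey hy')
      refine ⟨c, ?_⟩
      have h1 := (ex.add (f.map_exact hc)).sub (ey.smul c)
      rw [map_sub, map_smul] at h1
      convert h1 using 1
      module
    · refine ⟨f.f r z, f.map_closed hz, fun h1 => hz' (hinj r z hz h1)⟩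
    · intro z hz hzz
      obtain ⟨x, hx, ex⟩ := hsurj r z hz
      have e1 : B.mul r r m h (f.f r x) (f.f r x) = B.mul r r m h z z -
          B.mul r r m h z (z - f.f r x) - B.mul r r m h (z - f.f r x) z +
          B.mul r r m h (z - f.f r x) (z - f.f r x) := by
        simp only [map_sub, LinearMap.sub_apply]
        abel
      have h1 : A.Exact r x := by
        apply r5 x hx
        apply hinj m _ (hx.mul h hx)
        rw [f.map_mul, e1]
        exact ((hzz.sub (hz.mul_exact h ex)).sub (ex.mul_closed h hz)).add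
          (ex.mul_closed h ex.closed)
      have h2 := ex.add (f.map_exact h1)
      rwa [sub_add_cancel] at h2
  · rintro ⟨r1, r3, ⟨z, hz, hz'⟩, r5⟩
    refine ⟨?_, ?_, ?_, ?_⟩
    · intro h1
      apply r1
      rw [← f.map_one]
      exact f.map_exact h1
    · intro x y hx hy hy'
      obtain ⟨c, hc⟩ := r3 (f.f m x) (f.f m y) (f.map_closed hx) (f.map_closed hy)
        (fun h1 => hy' (hinj m y hy h1))
      refine ⟨c, hinj m _ (hx.sub (hy.smul c)) ?_⟩
      rw [map_sub, map_smul]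
      exact hc
    · obtain ⟨x, hx, ex⟩ := hsurj r z hz
      exact ⟨x, hx, hnot ex hz'⟩
    · intro z hz hzz
      apply hinj r z hz
      apply r5 _ (f.map_closed hz)
      rw [← f.map_mul]
      exact f.map_exact hzz

theorem aniso_of_quasiIsomorphicL {r m : ℤ} (h : r + r = m) (hAB : QuasiIsomorphicL A B) :
    Aniso r m h A ↔ Aniso r m h B := by
  induction hAB with
  | rel A B hf =>
    obtain ⟨f, hf⟩ := hf
    exact aniso_iff h f hf
  | refl A => exact Iff.rfl
  | symm A B _ ih => exact ih.symm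
  | trans A B C _ _ ih1 ih2 => exact ih1.trans ih2

end Cohomology

/-! ### Cones are never anisotropic -/

section Linear

theorem exists_functional {V : Type u} [AddCommGroup V] [Module ℚ V] (J : Submodule ℚ V) (v : V)
    (hv : v ∉ J) : ∃ f : Module.Dual ℚ V, f v = 1 ∧ ∀ x ∈ J, f x = 0 := by
  obtain ⟨f, hf, hJ⟩ := Submodule.exists_dual_map_eq_bot_of_notMem hv inferInstance
  refine ⟨(f v)⁻¹ • f, ?_, ?_⟩
  · rw [LinearMap.smul_apply, smul_eq_mul, inv_mul_cancel₀ hf]
  · intro x hx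
    have h1 : f x ∈ J.map f := ⟨x, hx, rfl⟩
    rw [hJ, Submodule.mem_bot] at h1
    rw [LinearMap.smul_apply, h1, smul_zero]

theorem exists_comp {V W : Type u} [AddCommGroup V] [Module ℚ V] [AddCommGroup W] [Module ℚ W]
    (D : V →ₗ[ℚ] W) (φ : Module.Dual ℚ V) (h : ∀ x, D x = 0 → φ x = 0) :
    ∃ g : Module.Dual ℚ W, g ∘ₗ D = φ := by
  have h1 : φ ∈ (LinearMap.ker D).dualAnnihilator := by
    rw [Submodule.mem_dualAnnihilator]
    intro x hx
    exact h x hx
  rw [← LinearMap.range_dualMap_eq_dualAnnihilator_ker] at h1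
  obtain ⟨g, hg⟩ := h1
  exact ⟨g, hg⟩

end Linear

section ConeArgument

variable {Q : LCDGA.{u}}

theorem LCDGA.mul_one' (i : ℤ) (h : i + 0 = i) (x : Q.X i) : Q.mul i 0 i h x Q.one = x := by
  rw [Q.comm i 0 i h (by omega), Q.one_mul, mul_zero, sgn_zero, one_smul]

theorem LCDGA.d_one : Q.d 0 1 (by norm_num) Q.one = 0 := by
  have h2 := Q.leibniz 0 0 0 1 1 1 (by norm_num) (by norm_num) (by norm_num) (by norm_num)
    (by norm_num) (by norm_num) Q.one Q.one
  rw [Q.one_mul, sgn_zero, one_smul, Q.one_mul] at h2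
  rw [Q.comm 1 0 1 (by norm_num) (by norm_num), Q.one_mul] at h2
  simp only [mul_zero, sgn_zero, one_smul] at h2
  simpa using h2

/-- The unit, in a degree which is only propositionally zero. -/
def LCDGA.oneAt (Q : LCDGA.{u}) (i : ℤ) (h : i = 0) : Q.X i := by
  subst h
  exact Q.one

theorem LCDGA.d_oneAt (i j : ℤ) (h : i + 1 = j) (hi : i = 0) : Q.d i j h (Q.oneAt i hi) = 0 := by
  subst hi
  obtain rfl : j = 1 := by omega
  exact LCDGA.d_one

theorem g_mul_oneAt {M : LMod Q} (Ψ : M.ToAlg) (p j k : ℤ) (hj : j = 0) (h : p + j = k)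
    (hk : p = k) (x : M.X p) : Q.mul p j k h (Ψ.f p x) (Q.oneAt j hj) = Ψ.g p k hk x := by
  subst hj hk
  exact LCDGA.mul_one' _ _ _

variable {n : ℤ}

/-- An element of `s^{-n} #Q` as a linear functional. -/
def ev (i : ℤ) (φ : (dualShiftL Q n).X i) : Module.Dual ℚ (Q.X (n - i)) := φ

/-- A linear functional as an element of `s^{-n} #Q`. -/
def od (i : ℤ) (φ : Module.Dual ℚ (Q.X (n - i))) : (dualShiftL Q n).X i := φ

theorem ev_od (i : ℤ) (φ : Module.Dual ℚ (Q.X (n - i))) : ev i (od i φ) = φ := rfl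
theorem ev_zero (i : ℤ) : ev (Q := Q) (n := n) i 0 = 0 := rfl
theorem ev_neg (i : ℤ) (φ : (dualShiftL Q n).X i) : ev i (-φ) = -ev i φ := rfl
theorem ev_smul (i : ℤ) (c : ℚ) (φ : (dualShiftL Q n).X i) : ev i (c • φ) = c • ev i φ := rfl
theorem ev_sub (i : ℤ) (φ ψ : (dualShiftL Q n).X i) : ev i (φ - ψ) = ev i φ - ev i ψ := rfl
theorem ev_ext (i : ℤ) {φ ψ : (dualShiftL Q n).X i} (h : ∀ x, ev i φ x = ev i ψ x) : φ = ψ :=
  LinearMap.ext h

theorem dual_d_apply (i j : ℤ) (h : i + 1 = j) (φ : (dualShiftL Q n).X i) (x : Q.X (n - j)) :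
    ev j ((dualShiftL Q n).d i j h φ) x =
      sgn (i + 1) * ev i φ (Q.d (n - j) (n - i) (by omega) x) := rfl

theorem dual_act_apply (i j k : ℤ) (h : i + j = k) (a : Q.X i) (φ : (dualShiftL Q n).X j)
    (x : Q.X (n - k)) :
    ev k ((dualShiftL Q n).act i j k h a φ) x =
      sgn (i * j) * ev j φ (Q.mul i (n - k) (n - j) (by omega) a x) := rfl

theorem sgn_ne_zero (i : ℤ) : sgn i ≠ 0 := by
  intro h
  have := sgn_mul_self i
  rw [h] at this
  norm_num at this

theorem dual_closed_iff (i j : ℤ) (h : i + 1 = j) (φ : (dualShiftL Q n).X i) :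
    (dualShiftL Q n).d i j h φ = 0 ↔ ∀ (a : ℤ) (ha : a + 1 = n - i) (y : Q.X a),
      ev i φ (Q.d a (n - i) ha y) = 0 := by
  constructor
  · intro h1 a ha y
    obtain rfl : a = n - j := by omega
    have h2 := dual_d_apply i j h φ y
    rw [h1, ev_zero, LinearMap.zero_apply] at h2
    rcases mul_eq_zero.mp h2.symm with h4 | h4
    · exact absurd h4 (sgn_ne_zero _)
    · exact h4
  · intro h1
    refine ev_ext _ fun x => ?_
    rw [dual_d_apply, h1, mul_zero, ev_zero, LinearMap.zero_apply]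

theorem dual_exact (i j : ℤ) (h : i + 1 = j) (φ : (dualShiftL Q n).X j)
    (hφ : ∀ (b : ℤ) (hb : n - j + 1 = b) (x : Q.X (n - j)), Q.d (n - j) b hb x = 0 →
      ev j φ x = 0) :
    ∃ ψ : (dualShiftL Q n).X i, (dualShiftL Q n).d i j h ψ = φ := by
  obtain ⟨g, hg⟩ := exists_comp (Q.d (n - j) (n - i) (by omega)) (ev j φ) (hφ _ _)
  refine ⟨od i (sgn (i + 1) • g), ?_⟩
  refine ev_ext _ fun x => ?_
  rw [dual_d_apply, ev_od, LinearMap.smul_apply, smul_eq_mul, ← mul_assoc, sgn_mul_self, one_mul,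
    ← hg]
  rfl

theorem one_exact {M : LMod Q} (Ψ : M.ToAlg) (hΨ : Ψ.Balanced) (e e' p p' : ℤ) (he : e = 0)
    (he' : e' + 1 = e) (hp : p = e) (hp' : p + 1 = p') (q : Q.X e') (w : M.X p)
    (hw : M.d p p' hp' w = 0) (h : Q.d e' e he' q + Ψ.g p e hp w = Q.oneAt e he) :
    (coneL Ψ hΨ).Exact 0 (coneL Ψ hΨ).one := by
  subst he
  obtain rfl : p = e' + 1 := by omega
  obtain rfl : p' = 0 + 1 := by omega
  refine (LCDGA.exact_iff he' _).mpr ⟨(q, w), ?_⟩
  refine Prod.ext h ?_
  change -M.d (e' + 1) (0 + 1) _ w = 0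
  rw [hw, neg_zero]

theorem d_eq_g_transport {M : LMod Q} (Ψ : M.ToAlg) (p i j j' : ℤ) (hp : p = j) (hp' : p = j')
    (hi : i + 1 = j) (hi' : i + 1 = j') (q : Q.X i) (x : M.X p)
    (h : Q.d i j hi q = Ψ.g p j hp x) : Q.d i j' hi' q = Ψ.g p j' hp' x := by
  obtain rfl : j = j' := by omega
  exact h

theorem cone_not_aniso {m r : ℤ} (hr : r + r = m) (Ψ : (dualShiftL Q (m + 1)).ToAlg)
    (hΨ : Ψ.Balanced) : ¬ Aniso r m hr (coneL Ψ hΨ) := by
  rintro ⟨r1, r3, ⟨z, hz, hz'⟩, r5⟩
  have he : m + 1 - (m + 1) = 0 := by omega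
  -- the functional `f`
  let J : Submodule ℚ (Q.X (m + 1 - (m + 1))) :=
    LinearMap.range (Q.d (m + 1 - (m + 1) - 1) (m + 1 - (m + 1)) (by omega)) ⊔
      (LinearMap.ker ((dualShiftL Q (m + 1)).d 0 1 (by norm_num))).map
        (Ψ.g 0 (m + 1 - (m + 1)) he.symm)
  have hJ : Q.oneAt (m + 1 - (m + 1)) he ∉ J := by
    intro h
    obtain ⟨y, ⟨q, rfl⟩, z, ⟨w, hw, rfl⟩, hsum⟩ := Submodule.mem_sup.mp h
    exact r1 (one_exact Ψ hΨ _ _ 0 1 he (by omega) he.symm (by norm_num) q w hw hsum)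
  obtain ⟨f', hf1, hfJ⟩ := exists_functional J _ hJ
  let f : (dualShiftL Q (m + 1)).X (m + 1) := od (m + 1) f'
  have hfd : ∀ (a : ℤ) (ha : a + 1 = m + 1 - (m + 1)) (y : Q.X a),
      ev (m + 1) f (Q.d a _ ha y) = 0 := by
    intro a ha y
    obtain rfl : a = m + 1 - (m + 1) - 1 := by omega
    exact hfJ _ (Submodule.mem_sup_left ⟨y, rfl⟩)
  have hfΨ : ∀ w : (dualShiftL Q (m + 1)).X 0, (dualShiftL Q (m + 1)).d 0 1 (by norm_num) w = 0 →
      ev (m + 1) f (Ψ.g 0 (m + 1 - (m + 1)) he.symm w) = 0 := by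
    intro w hw
    exact hfJ _ (Submodule.mem_sup_right ⟨w, hw, rfl⟩)
  -- `Ψ f` is a coboundary
  have hB : Ψ.g (m + 1) (m + 1 - 0) (by omega) f ∈
      LinearMap.range (Q.d m (m + 1 - 0) (by omega)) := by
    by_contra hcon
    obtain ⟨w', hw1, hwJ⟩ := exists_functional _ _ hcon
    let w : (dualShiftL Q (m + 1)).X 0 := od 0 w'
    have hw : (dualShiftL Q (m + 1)).d 0 1 (by norm_num) w = 0 := by
      rw [dual_closed_iff]
      intro a ha y
      obtain rfl : a = m := by omega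
      exact hwJ _ ⟨y, rfl⟩
    have hb := hΨ 0 (m + 1) (m + 1) (by omega) (by omega) w f
    have hb' := congrArg (fun φ => ev (m + 1) φ (Q.oneAt (m + 1 - (m + 1)) he)) hb
    simp only [ev_smul, LinearMap.smul_apply, smul_eq_mul] at hb'
    have h1 := dual_act_apply (n := m + 1) 0 (m + 1) (m + 1) (by omega) (Ψ.f 0 w) f
      (Q.oneAt (m + 1 - (m + 1)) he)
    have h2 := dual_act_apply (n := m + 1) (m + 1) 0 (m + 1) (by omega) (Ψ.f (m + 1) f) w
      (Q.oneAt (m + 1 - (m + 1)) he)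
    rw [g_mul_oneAt Ψ 0 _ _ he _ he.symm] at h1
    rw [g_mul_oneAt Ψ (m + 1) _ _ he _ (by omega)] at h2
    have hw1' : ev 0 w (Ψ.g (m + 1) (m + 1 - 0) (by omega) f) = 1 := hw1
    rw [hfΨ w hw, mul_zero] at h1
    rw [hw1', mul_one] at h2
    rw [h1, h2] at hb'
    rcases mul_eq_zero.mp hb'.symm with h4 | h4
    · exact sgn_ne_zero _ h4
    · exact sgn_ne_zero _ h4
  obtain ⟨q0, hq0⟩ := hB
  have hq1 : Q.d m (m + 1) rfl q0 = Ψ.g (m + 1) (m + 1) rfl f :=
    d_eq_g_transport Ψ (m + 1) m (m + 1 - 0) (m + 1) (by omega) rfl (by omega) rfl q0 f hq0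
  let z0 : (coneL Ψ hΨ).X m := (-q0, f)
  have hz0 : (coneL Ψ hΨ).Closed m z0 := by
    refine Prod.ext ?_ ?_
    · change Q.d m (m + 1) rfl (-q0) + Ψ.g (m + 1) (m + 1) rfl f = 0
      rw [map_neg, hq1, neg_add_cancel]
    · change -(dualShiftL Q (m + 1)).d (m + 1) (m + 1 + 1) rfl f = 0
      rw [(dual_closed_iff _ _ _ _).mpr hfd, neg_zero]
  -- evaluation at the unit vanishes on coboundaries
  have heps : ∀ x : (coneL Ψ hΨ).X m, (coneL Ψ hΨ).Exact m x →
      ev (m + 1) x.2 (Q.oneAt _ he) = 0 := by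
    rintro x ⟨y, rfl⟩
    change ev (m + 1) (-(dualShiftL Q (m + 1)).d (m - 1 + 1) (m + 1) (by omega) y.2)
      (Q.oneAt _ he) = 0
    rw [ev_neg, LinearMap.neg_apply, dual_d_apply, LCDGA.d_oneAt, map_zero, mul_zero, neg_zero]
  have hC : ∀ a : Q.X m, Q.Closed m a → (coneL Ψ hΨ).Exact m (a, 0) := by
    intro a ha
    have hcl : (coneL Ψ hΨ).Closed m (a, 0) := by
      refine Prod.ext ?_ ?_
      · change Q.d m (m + 1) rfl a + Ψ.g (m + 1) (m + 1) rfl 0 = 0
        rw [map_zero, add_zero]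
        exact ha
      · change -(dualShiftL Q (m + 1)).d (m + 1) (m + 1 + 1) rfl 0 = 0
        rw [map_zero, neg_zero]
    obtain ⟨c, hc⟩ := r3 (a, 0) z0 hcl hz0 (fun h => by
      have h5 : ev (m + 1) f (Q.oneAt _ he) = 0 := heps z0 h
      exact one_ne_zero (hf1.symm.trans h5))
    have h1 := heps _ hc
    have h2 : ev (m + 1) (0 - c • f) (Q.oneAt _ he) = 0 := h1
    have hf1' : ev (m + 1) f (Q.oneAt _ he) = 1 := hf1
    rw [ev_sub, ev_smul, ev_zero, LinearMap.sub_apply, LinearMap.smul_apply, LinearMap.zero_apply,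
      hf1', zero_sub, smul_eq_mul, mul_one, neg_eq_zero] at h2
    have hc2 : ∀ za : (coneL Ψ hΨ).X m, (coneL Ψ hΨ).Exact m (za - c • z0) →
        (coneL Ψ hΨ).Exact m za := by
      intro za hza
      rwa [h2, zero_smul, sub_zero] at hza
    exact hc2 _ hc
  have hD : ∀ a : Q.X r, Q.Closed r a → (coneL Ψ hΨ).Exact r (a, 0) := by
    intro a ha
    have hcl : (coneL Ψ hΨ).Closed r (a, 0) := by
      refine Prod.ext ?_ ?_
      · change Q.d r (r + 1) rfl a + Ψ.g (r + 1) (r + 1) rfl 0 = 0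
        rw [map_zero, add_zero]
        exact ha
      · change -(dualShiftL Q (m + 1)).d (r + 1) (r + 1 + 1) rfl 0 = 0
        rw [map_zero, neg_zero]
    refine r5 _ hcl ?_
    have h1 := hC (Q.mul r r m hr a a) (ha.mul hr ha)
    have e : (coneL Ψ hΨ).mul r r m hr (a, 0) (a, 0) =
        ((Q.mul r r m hr a a, 0) : Q.X m × (dualShiftL Q (m + 1)).X (m + 1)) := by
      refine Prod.ext rfl ?_
      change sgn r • (dualShiftL Q (m + 1)).act r (r + 1) (m + 1) (by omega) a 0 +
        sgn (r * r + r) • (dualShiftL Q (m + 1)).act r (r + 1) (m + 1) (by omega) a 0 = 0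
      rw [map_zero, smul_zero, smul_zero, add_zero]
    exact (congrArg ((coneL Ψ hΨ).Exact m) e).mpr h1
  -- the closed element `z`
  obtain ⟨q, μ⟩ := z
  have hz1 : Q.d r (r + 1) rfl q + Ψ.g (r + 1) (r + 1) rfl μ = 0 := congrArg Prod.fst hz
  have hz2 : (dualShiftL Q (m + 1)).d (r + 1) (r + 1 + 1) rfl μ = 0 := by
    have h1 : -(dualShiftL Q (m + 1)).d (r + 1) (r + 1 + 1) rfl μ = 0 := congrArg Prod.snd hz
    exact neg_eq_zero.mp h1
  have hμd := (dual_closed_iff _ _ _ _).mp hz2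
  have hD' : ∀ (s : ℤ) (hs : s = r) (a : Q.X s) (b : ℤ) (hb : s + 1 = b), Q.d s b hb a = 0 →
      ∃ (q' : Q.X (s - 1)) (m' : (dualShiftL Q (m + 1)).X (s - 1 + 1)),
        (dualShiftL Q (m + 1)).d (s - 1 + 1) (s + 1) (by omega) m' = 0 ∧
        a = Q.d (s - 1) s (by omega) q' + Ψ.g (s - 1 + 1) s (by omega) m' := by
    intro s hs a b hb ha
    subst hs hb
    obtain ⟨y, hy⟩ := hD a ha
    have hy1 : Q.d (s - 1) s (by omega) y.1 + Ψ.g (s - 1 + 1) s (by omega) y.2 = a :=
      congrArg Prod.fst hy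
    have hy2 : -(dualShiftL Q (m + 1)).d (s - 1 + 1) (s + 1) (by omega) y.2 = 0 :=
      congrArg Prod.snd hy
    exact ⟨y.1, y.2, neg_eq_zero.mp hy2, hy1.symm⟩
  have hμ : ∀ (b : ℤ) (hb : m + 1 - (r + 1) + 1 = b) (x : Q.X (m + 1 - (r + 1))),
      Q.d (m + 1 - (r + 1)) b hb x = 0 →
        ev (r + 1) μ x = 0 := by
    intro b hb x hx
    obtain ⟨q', m', hm', rfl⟩ := hD' _ (by omega) x b hb hx
    rw [map_add, hμd _ (by omega), zero_add]
    have hm'' := (dual_closed_iff _ _ _ _).mp hm'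
    have hbal := hΨ (m + 1 - (r + 1) - 1 + 1) (r + 1) (m + 1) (by omega) (by omega) m' μ
    have hb' := congrArg (fun φ => ev (m + 1) φ (Q.oneAt (m + 1 - (m + 1)) he)) hbal
    simp only [ev_smul, LinearMap.smul_apply, smul_eq_mul] at hb'
    have h1 := dual_act_apply (n := m + 1) (m + 1 - (r + 1) - 1 + 1) (r + 1) (m + 1) (by omega)
      (Ψ.f _ m') μ (Q.oneAt (m + 1 - (m + 1)) he)
    have h2 := dual_act_apply (n := m + 1) (r + 1) (m + 1 - (r + 1) - 1 + 1) (m + 1) (by omega)
      (Ψ.f _ μ) m' (Q.oneAt (m + 1 - (m + 1)) he)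
    rw [g_mul_oneAt Ψ _ _ _ he _ (by omega)] at h1
    rw [g_mul_oneAt Ψ _ _ _ he _ (by omega)] at h2
    have h3 : Q.d r (m + 1 - (m + 1 - (r + 1) - 1 + 1)) (by omega) (-q) =
        Ψ.g (r + 1) (m + 1 - (m + 1 - (r + 1) - 1 + 1)) (by omega) μ := by
      refine d_eq_g_transport Ψ (r + 1) r (r + 1) _ rfl (by omega) rfl (by omega) (-q) μ ?_
      rw [map_neg]
      exact neg_eq_of_add_eq_zero_right hz1
    rw [← h3, hm'', mul_zero] at h2
    rw [h1, h2, mul_zero] at hb'
    rcases mul_eq_zero.mp hb' with h5 | h5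
    · exact absurd h5 (sgn_ne_zero _)
    · exact h5
  obtain ⟨ψ, hψ⟩ := dual_exact (n := m + 1) (r - 1 + 1) (r + 1) (by omega) μ hμ
  apply hz'
  -- subtract the coboundary of `(0, -ψ)`
  have hex : (coneL Ψ hΨ).Exact r ((-Ψ.g (r - 1 + 1) r (by omega) ψ, μ) : Q.X r × _) := by
    refine ⟨((0, -ψ) : Q.X (r - 1) × (dualShiftL Q (m + 1)).X (r - 1 + 1)), ?_⟩
    refine Prod.ext ?_ ?_
    · change Q.d (r - 1) r _ 0 + Ψ.g (r - 1 + 1) r _ (-ψ) = _
      rw [map_zero, zero_add, map_neg]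
    · change -(dualShiftL Q (m + 1)).d (r - 1 + 1) (r + 1) _ (-ψ) = μ
      rw [map_neg, neg_neg, hψ]
  have hcl : Q.Closed r (q + Ψ.g (r - 1 + 1) r (by omega) ψ) := by
    unfold LCDGA.Closed
    rw [map_add, ← Ψ.g_d (r - 1 + 1) (r + 1) r (r + 1) (by omega) (by omega) rfl rfl, hψ]
    exact hz1
  have h1 := (hD _ hcl).add hex
  refine (congrArg ((coneL Ψ hΨ).Exact r) (Prod.ext ?_ ?_)).mpr h1
  · change q = q + Ψ.g (r - 1 + 1) r (by omega) ψ + -Ψ.g (r - 1 + 1) r (by omega) ψ
    rw [add_neg_cancel_right]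
  · change μ = 0 + μ
    rw [zero_add]

end ConeArgument


end Pool.Agent.X263.CDGA
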